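import Pool.Agent.Y506.PV.Fin

/-!
# The hyperplane conjecture for symmetric projections of sections

Q1 for all symmetric convex bodies in `ℝⁿ` which are affine images of bodies `K ⊂ ℝ^m`, `m ≤ n + r`,
where `K` is given by few functionals: `K` is an intersection of at most `m + q` halfspaces or
slabs, or `K = {∑_{i < N} φ_i(⟪v_i, x⟫) ≤ 1}`, `N ≤ m + q`, with functions `φ_i` on the line which
are homogeneous of degree `p ≥ 1`, or `K` is a central section of codimension at most `q` of a
product of generalised `ℓ_p` balls, `p ≥ 2`, or of symmetric bodies of dimension at most `B`. The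
constant depends on `q, r, B, p` only, the dimensions are arbitrary.

Examples: the sections of codimension `q` of `ℓ_p` balls, `1 ≤ p ≤ ∞`, the symmetric polytopes with
at most `2 (n + q)` vertices (theorem `few_vertices`), the zonotopes with at most `n + q`
generators, and the projections of corank `r` of all these bodies.

Method. (1) A density `∏ h_i(⟪v_i, x⟫)`, `i < N ≤ m + q`, is after an affine change of variables and
exponential tilts of the factors by a vector orthogonal to the range of `x ↦ (⟪v_i, x⟫)_i` the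
section, by a linear subspace `A` of codimension `d ≤ q`, of a product density `ρ` on `ℝ^N` whose
factors `f_i` have mean zero and variance one. Let `F` be the orthogonal complement of `A`, let
`π_i` be the squared norm of the projection of the `i`-th basis vector to `F`, and let `T_i(·, a)`
be the monotone map of `f_i` to its tilt by `exp (a s)`. New here is the thickening map `(t, λ) ↦
(T_i(t_i, λ_i))`, `t ∈ A`, `λ ∈ F` small. It is injective, the terms of first order in `λ` of its
Jacobian and of the density cancel because `λ` is orthogonal to `t`, its determinant is bounded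
below by `∏ κ_i(t_i) ^ π_i`, `κ = min(∫_{-∞}^t f, ∫_t^∞ f) / f(t)`, and it moves a point by at most
`C (∑ π_i (1 + |s_i|)²)^{1/2}`, which has a bounded expectation under `ρ`. So a set of points of the
section where a Lipschitz function is far from its mean under `ρ` has, with the weight `exp (-Y)`,
`Y = ∑ π_i (1 + |t_i| + (log 1/κ_i)₊)`, a small measure by the Poincare inequality of `ρ`; and the
expectation of `Y` under the section is bounded. With estimates for isotropic log-concave densities
in dimension `d` and `d + 1` (marginals of `ρ`), and approximation, this gives the concentration of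
Lipschitz functions on a constant scale, relative to the covariance, for the density and for all its
linear images. (2) If `Φ` is homogeneous of degree `p` then `exp (-Φ)` is the mixture of the uniform
measures on the dilates of `{Φ ≤ 1}`, and the relative variance of the radial variable is at most `p
/ n`; so the concentration passes to `{Φ ≤ 1}`. For `Powers` and `Blocks` it follows from Poincare
inequalities (see `SectionsOfProducts`, `PowerSums`). (3) The image of the uniform measure on a
convex body under a linear map with kernel of dimension one has a concave density `u` on the image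
of the body. By the Prekopa-Leindler inequality the set `{u < ε τ}` has normalised measure at most
`ε` for a suitable `τ` comparable to the mean of `u`, and fourth moments of linear functionals are
at most a constant times the squares of their variances; so the concentration passes to the uniform
measure on the image. This is iterated `r` times. (E. Milman's theorem on the stability of
isoperimetric constants of log-concave measures under perturbations in total variation could be used
in this step; so for `q = 0` the result follows from known facts about products and `ℓ_p` balls, and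
the new case is `q ≥ 1`.) (4) Concentration on a constant scale for all linear images implies the
isoperimetric inequality for sets of half the volume, with the De Giorgi perimeter, by a heat flow
argument, and the central section orthogonal to the direction of the largest variance is compared
with it (modules `KH` of the starting files).

The proofs of the lemmas of the modules `RG` are by helpers 849, 901, 401, 252, 950, 864, 429, 210,
445, 809, 487, 287, 510, 333, 497, 592, 65, and of the modules `PV` by helpers 824, 625, 252, 279,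
941, 388, 211, 592, 427, 363, 151, 532, 179.
-/

set_option autoImplicit false

namespace Pool.Agent.Results.MP_dc1397_gt.ImagesOfSections

open MeasureTheory Set
open scoped ENNReal InnerProductSpace

/-- Euclidean space of dimension `n` -/
abbrev Euc (n : ℕ) : Type := EuclideanSpace ℝ (Fin n)

/-- convex body `D = -D`: compact, convex, symmetric, with nonempty interior -/
structure SymmetricBody {k : ℕ} (D : Set (Euc k)) : Prop where
  conv : Convex ℝ D
  comp : IsCompact D
  int : (interior D).Nonempty
  symm : ∀ x ∈ D, -x ∈ D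

/-- `a (s₊)^p + b (s₋)^p`, where `a, b ∈ [0, ∞]` and `∞ · 0 = 0` -/
noncomputable def power (p : ℝ) (a b : ℝ≥0∞) (s : ℝ) : ℝ≥0∞ :=
  a * ENNReal.ofReal (max s 0 ^ p) + b * ENNReal.ofReal (max (-s) 0 ^ p)

/-- `K = {x | ⟪v_i, x⟫ ∈ I_i for all i < N}` with closed intervals `I_i` (which may be unbounded),
`N ≤ m + q`: intersections of `m + q` halfspaces or slabs in `ℝ^m` -/
def Slabs (q : ℕ) {m : ℕ} (K : Set (Euc m)) : Prop :=
  ∃ (N : ℕ) (v : Fin N → Euc m) (I : Fin N → Set ℝ), N ≤ m + q ∧ (∀ i, IsClosed (I i)) ∧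
    (∀ i, (I i).OrdConnected) ∧ K = {x | ∀ i, ⟪v i, x⟫_ℝ ∈ I i}

/-- `K = {x | ∑_{i < N} (a_i ⟪v_i, x⟫₊^p + b_i ⟪v_i, x⟫₋^p) ≤ 1}`, `a_i, b_i ∈ [0, ∞]`, `N ≤ m + q` -/
def Sums (p : ℝ) (q : ℕ) {m : ℕ} (K : Set (Euc m)) : Prop :=
  ∃ (N : ℕ) (v : Fin N → Euc m) (a b : Fin N → ℝ≥0∞), N ≤ m + q ∧
    K = {x | ∑ i, power p (a i) (b i) ⟪v i, x⟫_ℝ ≤ 1}

/-- `K = {x | ∑_{j < k_i} |ℓ_ij(x)|^{e_ij} ≤ 1 for all i < M}`, `e_ij ≥ 2`, `∑ k_i ≤ m + q` -/
def Powers (q : ℕ) {m : ℕ} (K : Set (Euc m)) : Prop :=
  ∃ (M : ℕ) (k : Fin M → ℕ) (e : ∀ i, Fin (k i) → ℝ) (l : ∀ i, Fin (k i) → (Euc m →ₗ[ℝ] ℝ)),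
    (∀ i, 1 ≤ k i) ∧ ∑ i, k i ≤ m + q ∧ (∀ i j, 2 ≤ e i j) ∧
    K = {x | ∀ i, ∑ j, |l i j x| ^ e i j ≤ 1}

/-- `K = {x | Q_i x ∈ D_i for all i < M}` with linear maps `Q_i : ℝ^m → ℝ^{k_i}` and symmetric convex
bodies `D_i`, `k_i ≤ B`, `∑ k_i ≤ m + q` -/
def Blocks (B q : ℕ) {m : ℕ} (K : Set (Euc m)) : Prop :=
  ∃ (M : ℕ) (k : Fin M → ℕ) (Q : ∀ i, Euc m →ₗ[ℝ] Euc (k i)) (D : ∀ i, Set (Euc (k i))),
    (∀ i, k i ≤ B) ∧ ∑ i, k i ≤ m + q ∧ (∀ i, SymmetricBody (D i)) ∧ K = {x | ∀ i, Q i x ∈ D i}

/-- the bodies of which images are taken: bounded, with nonempty interior, and of one of the four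
kinds `Slabs`, `Sums`, `Powers`, `Blocks`, with at most `q` functionals more than the dimension -/
structure Section (B q : ℕ) (p : ℝ) {m : ℕ} (K : Set (Euc m)) : Prop where
  bdd : Bornology.IsBounded K
  int : (interior K).Nonempty
  rep : Slabs q K ∨ Sums p q K ∨ Powers q K ∨ Blocks B q K

/-- the Lebesgue measure of a Euclidean space -/
noncomputable def lebesgue (F : Type) [NormedAddCommGroup F] [InnerProductSpace ℝ F]
    [FiniteDimensional ℝ F] [MeasurableSpace F] [BorelSpace F] : Measure F := volume

/-- the Lebesgue measure (of the Euclidean space `W`) of the section `Ω ∩ W` by a subspace `W` -/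
noncomputable def areaIn {F : Type} [NormedAddCommGroup F] [InnerProductSpace ℝ F]
    [FiniteDimensional ℝ F] [MeasurableSpace F] [BorelSpace F] (W : Submodule ℝ F) (Ω : Set F) :
    ℝ≥0∞ := lebesgue W {y : W | (y : F) ∈ Ω}

section defs

variable {κ : Type} [Fintype κ]

open Classical in
/-- divergence of a vector field on `ℝ^κ` -/
noncomputable def divergence (X : EuclideanSpace ℝ κ → EuclideanSpace ℝ κ)
    (x : EuclideanSpace ℝ κ) : ℝ :=
  ∑ i, fderiv ℝ X x (EuclideanSpace.single i 1) i

/-- `C¹` vector fields with compact support in `Ω` and `‖X‖ ≤ 1` -/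
structure Test (Ω : Set (EuclideanSpace ℝ κ)) (X : EuclideanSpace ℝ κ → EuclideanSpace ℝ κ) :
    Prop where
  diff : ContDiff ℝ 1 X
  comp : HasCompactSupport X
  sub : tsupport X ⊆ Ω
  le : ∀ x, ‖X x‖ ≤ 1

/-- the (De Giorgi) perimeter `P(E; Ω)` of `E` relative to the open set `Ω` -/
noncomputable def perimeter (E Ω : Set (EuclideanSpace ℝ κ)) : ℝ≥0∞ :=
  ⨆ (X : EuclideanSpace ℝ κ → EuclideanSpace ℝ κ) (_ : Test Ω X),
    ENNReal.ofReal (∫ x in E, divergence X x)

/-- the area (Lebesgue measure in the hyperplane `a^⊥`) of the central section of `Ω` by `a^⊥` -/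
noncomputable def sectionArea (Ω : Set (EuclideanSpace ℝ κ)) (a : EuclideanSpace ℝ κ) : ℝ≥0∞ :=
  areaIn (Submodule.span ℝ {a})ᗮ Ω

/-- some central hyperplane section has area at most `C P(E; Ω)` for every measurable `E ⊆ Ω` with
`|E| = |Ω| / 2` -/
def HyperplaneBound (C : ℝ) (Ω : Set (EuclideanSpace ℝ κ)) : Prop :=
  ∃ a : EuclideanSpace ℝ κ, a ≠ 0 ∧ ∀ E : Set (EuclideanSpace ℝ κ), MeasurableSet E → E ⊆ Ω →
    volume E = volume Ω / 2 → sectionArea Ω a ≤ ENNReal.ofReal C * perimeter E Ω

/-- the perimeter is the one used in the proof -/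
theorem perimeter_eq (E Ω : Set (EuclideanSpace ℝ κ)) :
    Pool.Agent.W695.KH.per E Ω = perimeter E Ω := by
  unfold perimeter Pool.Agent.W695.KH.per
  refine iSup_congr fun X => ?_
  refine iSup_congr_Prop ⟨fun h => ⟨h.1, h.2.1, h.2.2.1, h.2.2.2⟩,
    fun h => ⟨h.diff, h.comp, h.sub, h.le⟩⟩ fun _ => rfl

end defs

theorem base_of {B q : ℕ} {p : ℝ} {m : ℕ} {K : Set (Euc m)} (h : Section B q p K) :
    Pool.Agent.Y506.PV.Base q B p K := by
  refine ⟨h.bdd, h.int, ?_⟩
  rcases h.rep with h | h | h | h
  · obtain ⟨N, v, I, hN, hI1, hI2, hK⟩ := h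
    exact Or.inl ⟨N, hN, v, I, hI1, hI2, hK⟩
  · obtain ⟨N, v, a, b, hN, hK⟩ := h
    exact Or.inr (Or.inl ⟨N, hN, v, a, b, hK⟩)
  · obtain ⟨M, k, e, l, hk, hs, he, hK⟩ := h
    refine Or.inr (Or.inr (Or.inl ⟨M, k, hs, hk, e, fun i j =>
      LinearMap.toContinuousLinearMap (l i j), he, ?_⟩))
    rw [hK]
    rfl
  · obtain ⟨M, k, Q, D, hk, hs, hD, hK⟩ := h
    refine Or.inr (Or.inr (Or.inr ⟨M, k, hs, hk, fun i => LinearMap.toContinuousLinearMap (Q i),
      D, fun i => ⟨(hD i).comp.measurableSet, (hD i).conv, (hD i).comp.isBounded, (hD i).symm,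
        (hD i).int⟩, fun i => (hD i).comp.isClosed, ?_⟩))
    rw [hK]
    rfl

/-- the functional inequality for affine images -/
theorem star_of {c : ℝ} {B q r : ℕ} {p : ℝ} (H : ∀ (n m : ℕ) (K : Set (Euc m))
    (A : Euc m →ₗ[ℝ] Euc n), 1 ≤ n → m ≤ n + r → Pool.Agent.Y506.PV.Base q B p K →
    Function.Surjective A → IsCompact (A '' K) ∧ Convex ℝ (A '' K) ∧ (interior (A '' K)).Nonempty ∧
    Pool.Agent.Y506.RG.Star c (Pool.Agent.Y506.PV.ind (A '' K))) {m n : ℕ} {K : Set (Euc m)}
    (T : Euc m →ᵃ[ℝ] Euc n) (hn : 1 ≤ n) (hm : m ≤ n + r) (hK : Section B q p K)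
    (hT : Function.Surjective T) : IsCompact (T '' K) ∧ Convex ℝ (T '' K) ∧
    (interior (T '' K)).Nonempty ∧
    Pool.Agent.Y506.RG.Star c (Pool.Agent.Y506.PV.ind (T '' K)) := by
  have hTL : ∀ x, T x = T.linear x + T 0 := fun x => by
    have h := T.map_vadd 0 x
    simpa [vadd_eq_add] using h
  have hA : Function.Surjective T.linear := by
    intro y
    obtain ⟨x, hx⟩ := hT (y + T 0)
    refine ⟨x, ?_⟩
    have h := hTL x
    rw [hx] at h
    exact (add_right_cancel h).symm
  obtain ⟨h1, h2, h3, h4⟩ := H n m K T.linear hn hm (base_of hK) hA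
  have he : T '' K = (fun y => y + T 0) '' (T.linear '' K) := by
    rw [image_image]
    exact image_congr fun x _ => hTL x
  have hcp : IsCompact (T '' K) := by
    rw [he]
    exact h1.image (by fun_prop)
  refine ⟨hcp, ?_, ?_, ?_⟩
  · rw [he]
    have h := h2.translate (T 0)
    have e : (fun y => y + T 0) = fun y => T 0 + y := funext fun y => add_comm _ _
    rw [e]
    exact h
  · rw [he]
    have hop : IsOpen ((fun y => y + T 0) '' interior (T.linear '' K)) :=
      (Homeomorph.addRight (T 0)).isOpenMap _ isOpen_interior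
    exact (h3.image _).mono (interior_maximal (image_mono interior_subset) hop)
  · rw [he]
    exact Pool.Agent.Y506.PV.star_trans _ _ (Pool.Agent.Y506.PV.adm_ind _ h1.measurableSet
      h1.isBounded (Pool.Agent.Y506.PV.vol_pos h3)) h4

/-- **The hyperplane conjecture for symmetric projections of sections.** For all `q, r, B` and `p ≥ 1`
there is a constant `C > 0` such that for all `n ≥ 1` and all affine maps `T` of `ℝ^m` onto `ℝⁿ`,
`m ≤ n + r`, and all bodies `K ⊂ ℝ^m` of the class `Section B q p` for which `T '' K` is symmetric, the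
interior `Ω` of `T '' K` has a central hyperplane section `Ω ∩ a^⊥` with
`H_{n-1}(Ω ∩ a^⊥) ≤ C P(E; Ω)` for every measurable `E ⊆ Ω` with `|E| = |Ω| / 2`. -/
theorem result : ∀ (q r B : ℕ) (p : ℝ), 1 ≤ p → ∃ C : ℝ, 0 < C ∧
    ∀ (m n : ℕ) (K : Set (Euc m)) (T : Euc m →ᵃ[ℝ] Euc n), 1 ≤ n → m ≤ n + r →
    Section B q p K → Function.Surjective T → (∀ x ∈ T '' K, -x ∈ T '' K) →
    HyperplaneBound C (interior (T '' K)) := by
  intro q r B p hp
  obtain ⟨c, hc, H⟩ := Pool.Agent.Y506.PV.fin_img q r B p hp
  obtain ⟨C, hC, H'⟩ := Pool.Agent.Y151.PV.hyp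
  refine ⟨C * c, by positivity, fun m n K T hn hm hK hT hs => ?_⟩
  obtain ⟨h1, h2, h3, h4⟩ := star_of H T hn hm hK hT
  obtain ⟨P, hP⟩ : ∃ P : Set (Euc n), P = T '' K := ⟨_, rfl⟩
  rw [← hP] at h1 h2 h3 h4 hs ⊢
  have hcl : closure (interior P) = P := by
    rw [h2.closure_interior_eq_closure_of_nonempty_interior h3, h1.isClosed.closure_eq]
  have hsi : ∀ x ∈ interior P, -x ∈ interior P := by
    intro x hx
    have hop : IsOpen ((fun y => -y) ⁻¹' interior P) := isOpen_interior.preimage continuous_neg
    have hsub : (fun y => -y) ⁻¹' interior P ⊆ P := by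
      intro y hy
      have := hs _ (interior_subset hy)
      rwa [neg_neg] at this
    exact interior_maximal hsub hop (by simpa using hx)
  have h0 : (0 : Euc n) ∈ interior P := by
    obtain ⟨x, hx⟩ := h3
    have h := h2.interior hx (hsi x hx) (by norm_num : (0 : ℝ) ≤ 1 / 2)
      (by norm_num : (0 : ℝ) ≤ 1 / 2) (by norm_num)
    rwa [smul_neg, add_neg_cancel] at h
  obtain ⟨a, ha, h⟩ := H' n hn (interior P) isOpen_interior h2.interior
    (h1.isBounded.subset interior_subset) h0 hsi c hc (by rw [hcl]; exact h4)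
  refine ⟨a, ha, fun E hE hEΩ hvol => ?_⟩
  rw [← perimeter_eq]
  by_cases hp : Pool.Agent.W695.KH.per E (interior P) = ⊤
  · rw [hp, ENNReal.mul_top (ENNReal.ofReal_pos.2 (by positivity)).ne']
    exact le_top
  · refine (h E hE hEΩ hvol _ (Pool.Agent.W695.KH.perLe_toReal E _ hp)).trans (le_of_eq ?_)
    rw [ENNReal.ofReal_mul (by positivity), ENNReal.ofReal_toReal hp]

/-- The case of symmetric polytopes with at most `2 (n + q)` vertices. -/
theorem few_vertices : ∀ q : ℕ, ∃ C : ℝ, 0 < C ∧ ∀ (n N : ℕ) (x : Fin N → Euc n), 1 ≤ n →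
    N ≤ n + q → (interior (convexHull ℝ (range x ∪ range fun i => -x i))).Nonempty →
    HyperplaneBound C (interior (convexHull ℝ (range x ∪ range fun i => -x i))) := by
  intro q
  obtain ⟨c, hc, H⟩ := result 0 q 0 1 le_rfl
  refine ⟨c, hc, fun n N x hn hN hint => ?_⟩
  obtain ⟨A, v, a, b, hA, hb, hi, he⟩ := Pool.Agent.Y179.PV.verts n N x hint
  have hsymm : ∀ y ∈ convexHull ℝ (range x ∪ range fun i => -x i),
      -y ∈ convexHull ℝ (range x ∪ range fun i => -x i) := by
    intro y hy
    have h1 : -y ∈ -convexHull ℝ (range x ∪ range fun i => -x i) := by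
      rw [mem_neg, neg_neg]
      exact hy
    rw [← convexHull_neg] at h1
    have h2 : -(range x ∪ range fun i => -x i) = range x ∪ range fun i => -x i := by
      rw [union_neg, neg_range, neg_range, union_comm]
      simp
    rwa [h2] at h1
  rw [he] at hsymm ⊢
  exact H N n _ A.toAffineMap hn hN ⟨hb, hi, Or.inr (Or.inl ⟨N, v, a, b, le_rfl, rfl⟩)⟩ hA hsymm

end Pool.Agent.Results.MP_dc1397_gt.ImagesOfSections
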