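import Pool.Agent.Y506.KS.Ph

/-!
# The hyperplane conjecture for sections of products of generalised `ℓ_p` balls, `p ≥ 2`

For all bounded sets `Ω = {x ∈ ℝⁿ : ∑_j |ℓ_ij(x)|^{p_ij} < 1 for all i < N}` with linear functionals
`ℓ_ij`, `i < N`, `j < m_i`, real exponents `p_ij ≥ 2` (all of them may be different) and
`∑ m_i ≤ n + q`, where the `m_i` and their number are arbitrary (the central sections of codimension at
most `q` of linear images of products of generalised `ℓ_p` balls `{s ∈ ℝ^m : ∑ |s_j|^{p_j} < 1}` of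
arbitrary dimensions), the best central hyperplane cut is at most `C (1 + q)²` times the perimeter of
any set of half the volume. Examples: the central sections of codimension `q` of `ℓ_p` balls, `p ≥ 2`,
and of their products; any of these bodies cut by `q` symmetric slabs; with `p_ij = 2` all
intersections of ellipsoidal cylinders of total dimension `n + q`; with `m_i = 1` all symmetric
polytopes with `2 (n + q)` facets.

Method. After a linear change of variables `ℝⁿ` is the orthogonal complement of a `q`-dimensional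
subspace of `∏ ℝ^{m_i}`, and the posteriors of the Gaussian channel with input uniform on `Ω` are
sections of products of Gaussian tilts of the bodies `B = {s ∈ ℝ^m : G(s) < 1}`,
`G(s) = (1/M) ∑ |s_j|^{p_j}`, `M = ∑ 1/p_j`. New here is a bound for the covariance of all tilts
`exp(⟪a, s⟫ - b |s|²)` of `B` by an absolute constant, for all `m`, `p_j`, `a`, `b`. The tilted body is
the section `t = 1` of the log-concave density `exp(- α t + ⟪a, s⟫ - b |s|²)` on `{(s, t) : G(s) < t}`,
whose marginal in `s` is a product of one-dimensional densities. With `α` the logarithmic growth at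
`t = 1` of the tilted volume of `{G < t}` the section goes through a mode of `t`, hence its covariance
is at most a constant times the one of the product; coordinatewise dilations give `α ≥ M / 4` if
`b ≤ 1/8`; and the variances of the one-dimensional tilts of `exp(- |s|^p / 4)` are bounded by means of
the density of `(X - Y) / 2` given `X + Y`, which does not depend on `a`. For `b ≥ 1/8` the
Brascamp-Lieb inequality is enough. This gives the Poincare inequality with constant `C (1 + q)⁴`
times the largest variance of `Ω`. The rest is the formalised implication from Poincare to Cheeger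
inequalities, the De Giorgi perimeter by mollification and the bound for the central section of an even
log-concave marginal of the starting files (modules `KH`).
-/

set_option autoImplicit false

namespace Pool.Agent.Results.MP_dc1397_gt.PowerSums

open MeasureTheory Set
open scoped ENNReal InnerProductSpace

/-- Euclidean space of dimension `n` -/
abbrev Euc (n : ℕ) : Type := EuclideanSpace ℝ (Fin n)

/-- `{x | ∑_j |ℓ_ij x| ^ p_ij < 1 for all i}` -/
def powerBody {n N : ℕ} {m : Fin N → ℕ} (p : ∀ i, Fin (m i) → ℝ)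
    (ell : ∀ i, Fin (m i) → (Euc n →ₗ[ℝ] ℝ)) : Set (Euc n) :=
  {x | ∀ i, ∑ j, |ell i j x| ^ p i j < 1}

/-- the Lebesgue measure of a Euclidean space -/
noncomputable def lebesgue (F : Type) [NormedAddCommGroup F] [InnerProductSpace ℝ F]
    [FiniteDimensional ℝ F] [MeasurableSpace F] [BorelSpace F] : Measure F := volume

/-- the Lebesgue measure (of the Euclidean space `W`) of the section `Ω ∩ W` by a subspace `W` -/
noncomputable def areaIn {F : Type} [NormedAddCommGroup F] [InnerProductSpace ℝ F]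
    [FiniteDimensional ℝ F] [MeasurableSpace F] [BorelSpace F] (W : Submodule ℝ F) (Ω : Set F) :
    ℝ≥0∞ := lebesgue W {y : W | (y : F) ∈ Ω}

section defs

variable {κ : Type} [Fintype κ]

open Classical in
/-- divergence of a vector field on `ℝ^κ` -/
noncomputable def divergence (X : EuclideanSpace ℝ κ → EuclideanSpace ℝ κ)
    (x : EuclideanSpace ℝ κ) : ℝ :=
  ∑ i, fderiv ℝ X x (EuclideanSpace.single i 1) i

/-- `C¹` vector fields with compact support in `Ω` and `‖X‖ ≤ 1` -/
structure Test (Ω : Set (EuclideanSpace ℝ κ)) (X : EuclideanSpace ℝ κ → EuclideanSpace ℝ κ) :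
    Prop where
  diff : ContDiff ℝ 1 X
  comp : HasCompactSupport X
  sub : tsupport X ⊆ Ω
  le : ∀ x, ‖X x‖ ≤ 1

/-- the (De Giorgi) perimeter `P(E; Ω)` of `E` relative to the open set `Ω` -/
noncomputable def perimeter (E Ω : Set (EuclideanSpace ℝ κ)) : ℝ≥0∞ :=
  ⨆ (X : EuclideanSpace ℝ κ → EuclideanSpace ℝ κ) (_ : Test Ω X),
    ENNReal.ofReal (∫ x in E, divergence X x)

/-- the area (Lebesgue measure in the hyperplane `a^⊥`) of the central section of `Ω` by `a^⊥` -/
noncomputable def sectionArea (Ω : Set (EuclideanSpace ℝ κ)) (a : EuclideanSpace ℝ κ) : ℝ≥0∞ :=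
  areaIn (Submodule.span ℝ {a})ᗮ Ω

/-- some central hyperplane section has area at most `K P(E; Ω)` for every measurable `E ⊆ Ω` with
`|E| = |Ω| / 2` -/
def HyperplaneBound (K : ℝ) (Ω : Set (EuclideanSpace ℝ κ)) : Prop :=
  ∃ a : EuclideanSpace ℝ κ, a ≠ 0 ∧ ∀ E : Set (EuclideanSpace ℝ κ), MeasurableSet E → E ⊆ Ω →
    volume E = volume Ω / 2 → sectionArea Ω a ≤ ENNReal.ofReal K * perimeter E Ω

/-- the perimeter is the one used in the proof -/
theorem perimeter_eq (E Ω : Set (EuclideanSpace ℝ κ)) :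
    Pool.Agent.W695.KH.per E Ω = perimeter E Ω := by
  unfold perimeter Pool.Agent.W695.KH.per
  refine iSup_congr fun X => ?_
  refine iSup_congr_Prop ⟨fun h => ⟨h.1, h.2.1, h.2.2.1, h.2.2.2⟩,
    fun h => ⟨h.diff, h.comp, h.sub, h.le⟩⟩ fun _ => rfl

end defs

/-- **The hyperplane conjecture for sections of products of generalised `ℓ_p` balls, `p ≥ 2`.** There
is an absolute constant `C` such that for all `n ≥ 1`, `q ≥ 0`, all `N`, all `m_i ≥ 1` with
`∑ m_i ≤ n + q`, all real exponents `p_ij ≥ 2` and all linear functionals `ℓ_ij` on `ℝⁿ`, `i < N`,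
`j < m_i`, for which `Ω = {x | ∑_j |ℓ_ij(x)|^{p_ij} < 1 for all i}` is bounded, there is a central
hyperplane `a^⊥` such that for every measurable `E ⊆ Ω` with `|E| = |Ω| / 2`:
`H_{n-1}(Ω ∩ a^⊥) ≤ C (1 + q)² P(E; Ω)`. -/
theorem result : ∃ C : ℝ, 0 < C ∧ ∀ (n q N : ℕ) (m : Fin N → ℕ) (p : ∀ i, Fin (m i) → ℝ)
    (ell : ∀ i, Fin (m i) → (Euc n →ₗ[ℝ] ℝ)), 1 ≤ n → (∀ i, 1 ≤ m i) → ∑ i, m i ≤ n + q →
    (∀ i j, 2 ≤ p i j) → Bornology.IsBounded (powerBody p ell) →
    HyperplaneBound (C * (1 + q) ^ 2) (powerBody p ell) := by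
  obtain ⟨C, hC, H⟩ := Pool.Agent.Y506.KS.finalP
  refine ⟨C * (4 * Real.sqrt 116486307840), by positivity, ?_⟩
  intro n q N m p ell hn hm hsum hp hbd
  have hne' : Nonempty (Fin n) := ⟨⟨0, hn⟩⟩
  let L : ∀ i, Fin (m i) → (Euc n →L[ℝ] ℝ) := fun i j => LinearMap.toContinuousLinearMap (ell i j)
  obtain ⟨Ω, hΩ⟩ : ∃ Ω : Set (Euc n), Ω = powerBody p ell := ⟨_, rfl⟩
  have hmem : ∀ x, x ∈ Ω ↔ ∀ i, Pool.Agent.Y506.KS.PS (p i) (L i) x < 1 := fun x => by
    rw [hΩ]
    rfl
  rw [← hΩ] at hbd ⊢
  have hker : ∀ x, (∀ i j, L i j x = 0) → x = 0 := by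
    intro x hx
    refine Pool.Agent.Y506.KS.ker_triv hbd fun c => ?_
    rw [hmem]
    intro i
    rw [Pool.Agent.Y506.KS.PS_zero (hp i) (L i) (fun j => by rw [map_smul, hx i j, smul_zero])]
    exact zero_lt_one
  have hconv : Convex ℝ Ω := by
    intro x hx y hy s t hs ht hst
    rw [hmem] at hx hy ⊢
    intro i
    refine lt_of_le_of_lt (Pool.Agent.Y506.KS.PS_conv (hp i) (L i) x y s t hs ht hst) ?_
    rcases eq_or_lt_of_le hs with h0 | h0
    · have ht1 : t = 1 := by linarith
      rw [← h0, ht1, zero_mul, zero_add, one_mul]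
      exact hy i
    · calc s * Pool.Agent.Y506.KS.PS (p i) (L i) x + t * Pool.Agent.Y506.KS.PS (p i) (L i) y
          < s * 1 + t * 1 :=
            add_lt_add_of_lt_of_le (mul_lt_mul_of_pos_left (hx i) h0)
              (mul_le_mul_of_nonneg_left (hy i).le ht)
        _ = 1 := by rw [mul_one, mul_one, hst]
  have hopen : IsOpen Ω := by
    have e : Ω = ⋂ i, {x | Pool.Agent.Y506.KS.PS (p i) (L i) x < 1} := by
      ext x
      rw [hmem]
      simp
    rw [e]
    exact isOpen_iInter_of_finite fun i =>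
      isOpen_lt (Pool.Agent.Y506.KS.PS_cont (hp i) (L i)) continuous_const
  have h0 : (0 : Euc n) ∈ Ω := by
    rw [hmem]
    intro i
    rw [Pool.Agent.Y506.KS.PS_zero (hp i) (L i) (fun j => map_zero _)]
    exact zero_lt_one
  have hsym : ∀ x ∈ Ω, -x ∈ Ω := by
    intro x hx
    rw [hmem] at hx ⊢
    intro i
    rw [Pool.Agent.Y506.KS.PS_neg]
    exact hx i
  have hP : Pool.Agent.Y506.KS.PoK Ω (Pool.Agent.Y506.KS.CP q) := by
    have h1 := Pool.Agent.Y506.KS.pow_PoK Pool.Agent.Y506.KS.ij_open
      (fun i => Nat.lt_of_lt_of_le Nat.zero_lt_one (hm i)) hp hker q (by simpa using hsum)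
    have e : Ω = {x | ∀ i, (fun t : ℝ => if t < 1 then (1 : ℝ) else 0)
        (∑ j, |L i j x| ^ p i j) = 1} := by
      ext x
      rw [hmem]
      refine forall_congr' fun i => ?_
      unfold Pool.Agent.Y506.KS.PS
      by_cases h3 : ∑ j, |L i j x| ^ p i j < 1
      · simp [h3]
      · simp [h3]
    rw [e]
    exact h1
  obtain ⟨a, ha, h⟩ := H (Fin n) Ω hopen hconv hbd h0 hsym (Pool.Agent.Y506.KS.CP q)
    (Pool.Agent.Y506.KS.CP_pos q) hP
  refine ⟨a, ha, fun E hE hEΩ hvol => ?_⟩
  have h4 := h E hE hEΩ hvol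
  rw [perimeter_eq] at h4
  refine h4.trans ?_
  have h2 : C * Real.sqrt (Pool.Agent.Y506.KS.CP q) ≤
      C * (4 * Real.sqrt 116486307840) * (1 + q) ^ 2 := by
    rw [mul_assoc]
    exact mul_le_mul_of_nonneg_left (Pool.Agent.Y506.KS.sqrt_CP_le q) hC.le
  gcongr

end Pool.Agent.Results.MP_dc1397_gt.PowerSums
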