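import Pool.Agent.Y506.KS.Bq

/-!
# The hyperplane conjecture of Kannan, Lovasz and Simonovits for sections of products of low
dimensional symmetric convex sets

For all open bounded convex sets `Ω = -Ω ⊂ ℝⁿ` which are sections, of codimension at most `q`, of
products of open symmetric convex sets of dimension at most `m`, that is
`Ω = {x | Q_i x ∈ D_i for all i}` with linear maps `Q_i : ℝⁿ → ℝ^{m_i}`, bounded open symmetric convex
sets `D_i ⊂ ℝ^{m_i}`, `m_i ≤ m` and `∑ m_i ≤ n + q`, the best central hyperplane cut is at most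
`C (1 + m) (1 + q)²` times the perimeter of any set of half the volume. The case `m = 1` consists of
the symmetric polytopes given by `n + q` inequalities `|⟪a_i, x⟫| < 1` (theorem `polytope`): the
conjecture holds with an absolute constant for the symmetric polytopes with at most `2 (n + q)` facets,
`q` fixed.

Method. After a linear change of variables `ℝⁿ` is the orthogonal complement of a `q`-dimensional
subspace `F` of `∏ ℝ^{m_i}`. The posteriors of the Gaussian channel with input uniform on `Ω` are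
sections of product measures. The covariance of such a section is at most `C (1 + q)²` times the largest
variance of a factor: the product measure is tilted by an exponential of a linear function on `F` such
that the section through `0` becomes the heaviest one, and the covariances of the sections are
compared by the Prekopa-Leindler inequality for an exponent `1 - 1/(q+2)`. If all posterior
covariances at noise level `h` are at most `h / 4` then the Poincare constant is at most `2 h`. For
the symmetric measure itself the covariance of the section is also bounded below, through the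
supergradient of the logarithm of the Laplace transforms of the sections. Together: Poincare inequality
with constant `C (1 + m)² (1 + q)⁴` times the largest variance of `Ω`. The rest is the formalised
implication from Poincare to Cheeger inequalities, the De Giorgi perimeter by mollification and the
bound for the central section of an even log-concave marginal of the starting files (modules `KH`).
-/

set_option autoImplicit false

namespace Pool.Agent.Results.MP_dc1397_gt.SectionsOfProducts

open MeasureTheory Set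
open scoped ENNReal InnerProductSpace

/-- Euclidean space of dimension `n` -/
abbrev Euc (n : ℕ) : Type := EuclideanSpace ℝ (Fin n)

/-- an open, convex, bounded, nonempty set with `Ω = -Ω` -/
structure Domain {n : ℕ} (Ω : Set (Euc n)) : Prop where
  op : IsOpen Ω
  conv : Convex ℝ Ω
  bdd : Bornology.IsBounded Ω
  ne : Ω.Nonempty
  symm : ∀ x ∈ Ω, -x ∈ Ω

/-- `Ω = {x | Q_i x ∈ D_i for all i}` with linear maps `Q_i` from `ℝⁿ` to `ℝ^{m_i}` and nonempty
bounded open convex sets `D_i = -D_i ⊂ ℝ^{m_i}`, where `m_i ≤ m` and `∑ m_i ≤ n + q`. -/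
def SectionOfProduct {n : ℕ} (m q : ℕ) (Ω : Set (Euc n)) : Prop :=
  ∃ (N : ℕ) (d : Fin N → ℕ) (Q : ∀ i, Euc n →ₗ[ℝ] Euc (d i)) (D : ∀ i, Set (Euc (d i))),
    (∀ i, d i ≤ m) ∧ ∑ i, d i ≤ n + q ∧ (∀ i, Domain (D i)) ∧ Ω = {x | ∀ i, Q i x ∈ D i}

/-- the Lebesgue measure of a Euclidean space -/
noncomputable def lebesgue (F : Type) [NormedAddCommGroup F] [InnerProductSpace ℝ F]
    [FiniteDimensional ℝ F] [MeasurableSpace F] [BorelSpace F] : Measure F := volume

/-- the Lebesgue measure (of the Euclidean space `W`) of the section `Ω ∩ W` by a subspace `W` -/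
noncomputable def areaIn {F : Type} [NormedAddCommGroup F] [InnerProductSpace ℝ F]
    [FiniteDimensional ℝ F] [MeasurableSpace F] [BorelSpace F] (W : Submodule ℝ F) (Ω : Set F) :
    ℝ≥0∞ := lebesgue W {y : W | (y : F) ∈ Ω}

section defs

variable {κ : Type} [Fintype κ]

open Classical in
/-- divergence of a vector field on `ℝ^κ` -/
noncomputable def divergence (X : EuclideanSpace ℝ κ → EuclideanSpace ℝ κ)
    (x : EuclideanSpace ℝ κ) : ℝ :=
  ∑ i, fderiv ℝ X x (EuclideanSpace.single i 1) i

/-- `C¹` vector fields with compact support in `Ω` and `‖X‖ ≤ 1` -/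
structure Test (Ω : Set (EuclideanSpace ℝ κ)) (X : EuclideanSpace ℝ κ → EuclideanSpace ℝ κ) :
    Prop where
  diff : ContDiff ℝ 1 X
  comp : HasCompactSupport X
  sub : tsupport X ⊆ Ω
  le : ∀ x, ‖X x‖ ≤ 1

/-- the (De Giorgi) perimeter `P(E; Ω)` of `E` relative to the open set `Ω` -/
noncomputable def perimeter (E Ω : Set (EuclideanSpace ℝ κ)) : ℝ≥0∞ :=
  ⨆ (X : EuclideanSpace ℝ κ → EuclideanSpace ℝ κ) (_ : Test Ω X),
    ENNReal.ofReal (∫ x in E, divergence X x)

/-- the area (Lebesgue measure in the hyperplane `a^⊥`) of the central section of `Ω` by `a^⊥` -/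
noncomputable def sectionArea (Ω : Set (EuclideanSpace ℝ κ)) (a : EuclideanSpace ℝ κ) : ℝ≥0∞ :=
  areaIn (Submodule.span ℝ {a})ᗮ Ω

/-- some central hyperplane section has area at most `K P(E; Ω)` for every measurable `E ⊆ Ω` with
`|E| = |Ω| / 2` -/
def HyperplaneBound (K : ℝ) (Ω : Set (EuclideanSpace ℝ κ)) : Prop :=
  ∃ a : EuclideanSpace ℝ κ, a ≠ 0 ∧ ∀ E : Set (EuclideanSpace ℝ κ), MeasurableSet E → E ⊆ Ω →
    volume E = volume Ω / 2 → sectionArea Ω a ≤ ENNReal.ofReal K * perimeter E Ω

/-- the perimeter is the one used in the proof -/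
theorem perimeter_eq (E Ω : Set (EuclideanSpace ℝ κ)) :
    Pool.Agent.W695.KH.per E Ω = perimeter E Ω := by
  unfold perimeter Pool.Agent.W695.KH.per
  refine iSup_congr fun X => ?_
  refine iSup_congr_Prop ⟨fun h => ⟨h.1, h.2.1, h.2.2.1, h.2.2.2⟩,
    fun h => ⟨h.diff, h.comp, h.sub, h.le⟩⟩ fun _ => rfl

end defs

/-- the sets given by `n + q` inequalities `|⟪a_i, x⟫| < 1` (the interiors of the symmetric polytopes
with at most `2 (n + q)` facets) belong to the class, with `m = 1` -/
theorem polytope {n q : ℕ} (a : Fin (n + q) → Euc n) :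
    SectionOfProduct 1 q {x : Euc n | ∀ i, |⟪a i, x⟫_ℝ| < 1} := by
  refine ⟨n + q, fun _ => 1, fun i =>
    { toFun := fun x => WithLp.toLp 2 fun _ => ⟪a i, x⟫_ℝ
      map_add' := fun x y => by ext; simp [inner_add_right]
      map_smul' := fun c x => by ext; simp [real_inner_smul_right] },
    fun _ => {y | ∀ j, |y j| < 1}, fun _ => le_rfl, by simp, fun i => ?_, ?_⟩
  · refine ⟨?_, ?_, ?_, ⟨0, fun j => by simp⟩, fun y hy j => ?_⟩
    · have : {y : Euc 1 | ∀ j, |y j| < 1} = ⋂ j, {y : Euc 1 | |y j| < 1} := by ext y; simp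
      change IsOpen {y : Euc 1 | ∀ j, |y j| < 1}
      rw [this]
      refine isOpen_iInter_of_finite fun j => isOpen_lt ?_ continuous_const
      fun_prop
    · intro x hx y hy s t hs ht hst j
      have h1 : (s • x + t • y) j = s * x j + t * y j := rfl
      rw [h1]
      rcases eq_or_lt_of_le hs with h0 | h0
      · have ht1 : t = 1 := by linarith
        rw [← h0, ht1, zero_mul, zero_add, one_mul]
        exact hy j
      · calc |s * x j + t * y j| ≤ |s * x j| + |t * y j| := abs_add_le _ _
          _ = s * |x j| + t * |y j| := by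
              rw [abs_mul, abs_mul, abs_of_nonneg hs, abs_of_nonneg ht]
          _ < s * 1 + t * 1 := add_lt_add_of_lt_of_le (mul_lt_mul_of_pos_left (hx j) h0)
              (mul_le_mul_of_nonneg_left (hy j).le ht)
          _ = 1 := by rw [mul_one, mul_one, hst]
    · refine (Metric.isBounded_closedBall (x := (0 : Euc 1)) (r := 1)).subset fun y hy => ?_
      rw [mem_closedBall_zero_iff, EuclideanSpace.norm_eq, Fin.sum_univ_one, Real.sqrt_sq_eq_abs,
        Real.norm_eq_abs, abs_abs]
      exact (hy 0).le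
    · have h1 : (-y) j = -(y j) := rfl
      rw [h1, abs_neg]
      exact hy j
  · ext x
    simp

/-- **The hyperplane conjecture for sections of products of low dimensional symmetric convex sets.**
There is an absolute constant `C` such that for all `n ≥ 1`, all `m, q ≥ 0` and every nonempty open
bounded convex set `Ω = -Ω ⊂ ℝⁿ` of the form `Ω = {x | Q_i x ∈ D_i for all i}`, with linear maps
`Q_i : ℝⁿ → ℝ^{m_i}` and bounded open convex sets `D_i = -D_i ⊂ ℝ^{m_i}`, `m_i ≤ m`,
`∑ m_i ≤ n + q`, there is a central hyperplane `a^⊥` such that for every measurable `E ⊆ Ω` with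
`|E| = |Ω| / 2`: `H_{n-1}(Ω ∩ a^⊥) ≤ C (1 + m) (1 + q)² P(E; Ω)`. -/
theorem result : ∃ C : ℝ, 0 < C ∧ ∀ n m q : ℕ, 1 ≤ n → ∀ Ω : Set (Euc n), Domain Ω →
    SectionOfProduct m q Ω → HyperplaneBound (C * ((1 + m) * (1 + q) ^ 2)) Ω := by
  obtain ⟨C, hC, H⟩ := Pool.Agent.Y506.KS.finalP
  refine ⟨C * (4 * Real.sqrt 5505024), by positivity, ?_⟩
  intro n m q hn Ω hΩ hS
  obtain ⟨N, d, Q, D, hd, hsum, hD, hrep⟩ := hS
  have hne' : Nonempty (Fin n) := ⟨⟨0, hn⟩⟩
  have hSB : ∀ i, Pool.Agent.Y506.KS.SB (D i) := fun i =>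
    ⟨(hD i).op.measurableSet, (hD i).conv, (hD i).bdd, (hD i).symm, by
      rw [(hD i).op.interior_eq]
      exact (hD i).ne⟩
  let Q' : ∀ i, Euc n →L[ℝ] Euc (d i) := fun i => LinearMap.toContinuousLinearMap (Q i)
  have hKK : Ω = Pool.Agent.Y506.KS.KK Q' D := by
    rw [hrep]
    rfl
  have h0D : ∀ i, (0 : Euc (d i)) ∈ D i := fun i => by
    obtain ⟨r, hr, hb⟩ := (hSB i).ball
    exact hb (by simpa using hr)
  have hQ : ∀ x, (∀ i, Q' i x = 0) → x = 0 := by
    intro x hx
    by_contra hne
    obtain ⟨R, hR⟩ := hΩ.bdd.exists_norm_le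
    have hxn : 0 < ‖x‖ := norm_pos_iff.2 hne
    have hmem : ((|R| + 1) / ‖x‖) • x ∈ Ω := by
      rw [hKK]
      intro i
      rw [map_smul, hx i, smul_zero]
      exact h0D i
    have h1 := hR _ hmem
    rw [norm_smul, Real.norm_of_nonneg (by positivity), div_mul_cancel₀ _ hxn.ne'] at h1
    linarith [le_abs_self R]
  have hP : Pool.Agent.Y506.KS.PoK Ω (Pool.Agent.Y506.KS.CB m q) := by
    rw [hKK]
    exact Pool.Agent.Y506.KS.KK_PoK hQ hSB m hd q (by simpa using hsum)
  have h0 : (0 : Euc n) ∈ Ω := by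
    rw [hKK]
    intro i
    rw [map_zero]
    exact h0D i
  obtain ⟨a, ha, h⟩ := H (Fin n) Ω hΩ.op hΩ.conv hΩ.bdd h0 hΩ.symm (Pool.Agent.Y506.KS.CB m q)
    (Pool.Agent.Y506.KS.CB_pos m q) hP
  refine ⟨a, ha, fun E hE hEΩ hvol => ?_⟩
  have h4 := h E hE hEΩ hvol
  rw [perimeter_eq] at h4
  refine h4.trans ?_
  have h2 : C * Real.sqrt (Pool.Agent.Y506.KS.CB m q) ≤
      C * (4 * Real.sqrt 5505024) * ((1 + m) * (1 + q) ^ 2) := by
    have h3 : Real.sqrt (Pool.Agent.Y506.KS.CB m q) =
        Real.sqrt 5505024 * (((m : ℝ) + 1) * ((q : ℝ) + 2) ^ 2) := by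
      unfold Pool.Agent.Y506.KS.CB
      have e : (5505024 : ℝ) * ((m : ℝ) + 1) ^ 2 * ((q : ℝ) + 2) ^ 4 =
          5505024 * (((m : ℝ) + 1) * ((q : ℝ) + 2) ^ 2) ^ 2 := by ring
      rw [e, Real.sqrt_mul (by norm_num), Real.sqrt_sq (by positivity)]
    rw [h3, mul_assoc]
    refine mul_le_mul_of_nonneg_left ?_ hC.le
    have h4 : ((q : ℝ) + 2) ^ 2 ≤ 4 * (1 + q) ^ 2 := by
      have : (0 : ℝ) ≤ q := Nat.cast_nonneg q
      nlinarith
    calc Real.sqrt 5505024 * (((m : ℝ) + 1) * ((q : ℝ) + 2) ^ 2)
        ≤ Real.sqrt 5505024 * (((m : ℝ) + 1) * (4 * (1 + q) ^ 2)) := by gcongr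
      _ = _ := by ring
  gcongr

end Pool.Agent.Results.MP_dc1397_gt.SectionsOfProducts
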